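import Mathlib

/-!
Definitions: o-minimal theories, saturated models, global invariant types, definable closure.
-/

namespace Pool.Agent.R466.OM

open FirstOrder FirstOrder.Language FirstOrder.Language.Structure Cardinal

universe u

section defs

variable {L : FirstOrder.Language.{0, 0}} (lt : L.Relations 2)

/-- `a < b` in the structure `N`. -/
def Lt (N : Type u) [L.Structure N] (a b : N) : Prop := RelMap lt ![a, b]

/-- The open interval with endpoints in `N ∪ {±∞}`; `none` stands for an infinite endpoint. -/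
def OpenInt (N : Type u) [L.Structure N] (a b : Option N) : Set N :=
  {x | (∀ c, a = some c → Lt lt N c x) ∧ ∀ c, b = some c → Lt lt N x c}

/-- `N` is an o-minimal structure: `<` is a dense linear order without endpoints, and every subset
of `N` which is definable with parameters is a finite union of points and open intervals with
endpoints in `N ∪ {±∞}`. -/
structure OMinStr (N : Type u) [L.Structure N] : Prop where
  irrefl : ∀ a : N, ¬ Lt lt N a a
  trans : ∀ a b c : N, Lt lt N a b → Lt lt N b c → Lt lt N a c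
  total : ∀ a b : N, Lt lt N a b ∨ a = b ∨ Lt lt N b a
  dense : ∀ a b : N, Lt lt N a b → ∃ c, Lt lt N a c ∧ Lt lt N c b
  no_max : ∀ a : N, ∃ b, Lt lt N a b
  no_min : ∀ a : N, ∃ b, Lt lt N b a
  omin : ∀ S : Set N, (Set.univ : Set N).Definable₁ L S → ∃ G : Set (Set N), G.Finite ∧
    (∀ X ∈ G, (∃ a, X = {a}) ∨ ∃ a b : Option N, X = OpenInt lt N a b) ∧ S = ⋃₀ G

/-- `T` is a complete o-minimal theory. -/
def OMinimal (T : L.Theory) : Prop :=
  T.IsComplete ∧ ∀ (N : Type u) [L.Structure N] [Nonempty N], N ⊨ T → OMinStr lt N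

/-- `U` is `κ`-saturated: every family of `A`-definable subsets of `U` with the finite
intersection property, where `|A| < κ`, has nonempty intersection. -/
def Saturated (L : FirstOrder.Language.{0, 0}) (κ : Cardinal.{u}) (U : Type u)
    [L.Structure U] : Prop :=
  ∀ A : Set U, #A < κ → ∀ F : Set (Set U), (∀ S ∈ F, A.Definable₁ L S) →
    (∀ G : Finset (Set U), (G : Set (Set U)) ⊆ F → ∃ x, ∀ S ∈ G, x ∈ S) → ∃ x, ∀ S ∈ F, x ∈ S

/-- The complete type over `U` (a set of formulas with parameters in `U` and one free variable)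
of the element `b` of the elementary extension `ι : U → V`. -/
def tp {U V : Type u} [L.Structure V] (ι : U → V) (b : V) : Set (L.Formula (U ⊕ Fin 1)) :=
  {φ | φ.Realize (Sum.elim ι (fun _ => b))}

/-- `p` is a global 1-type, that is, a complete type over `U` in one variable. -/
def IsGlobalType {U : Type u} [L.Structure U] (p : Set (L.Formula (U ⊕ Fin 1))) : Prop :=
  ∃ (V : Type u) (_ : L.Structure V) (ι : U ↪ₑ[L] V) (b : V), p = tp ι b

/-- `p` is `M`-invariant: fixed by every automorphism of `U` which fixes `M` pointwise. -/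
def Invariant {U : Type u} [L.Structure U] (M : Set U) (p : Set (L.Formula (U ⊕ Fin 1))) : Prop :=
  ∀ σ : U ≃[L] U, (∀ m ∈ M, σ m = m) →
    ∀ φ : L.Formula (U ⊕ Fin 1), φ ∈ p ↔ φ.relabel (Sum.map σ id) ∈ p

/-- The formula `x ≤ d`, where `x` is the free variable. -/
def leF {U : Type u} (d : U) : L.Formula (U ⊕ Fin 1) :=
  (lt.formula₂ (Term.var (Sum.inr 0)) (Term.var (Sum.inl d))) ⊔
    (Term.equal (Term.var (Sum.inr 0)) (Term.var (Sum.inl d)))

/-- The set `R_p` of all `d` with `p ⊢ x ≤ d`. -/
def RightSet {U : Type u} (p : Set (L.Formula (U ⊕ Fin 1))) : Set U := {d | leF lt d ∈ p}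

/-- `p` has small cofinality on the right: the coinitiality of `R_p` is `< κ`. -/
def SmallRight {U : Type u} [L.Structure U] (κ : Cardinal.{u})
    (p : Set (L.Formula (U ⊕ Fin 1))) : Prop :=
  ∃ C : Set U, #C < κ ∧ C ⊆ RightSet lt p ∧ ∀ d ∈ RightSet lt p, ∃ c ∈ C, c = d ∨ Lt lt U c d

/-- The definable closure of `A` in `V`. -/
def dcl (L : FirstOrder.Language.{0, 0}) {V : Type u} [L.Structure V] (A : Set V) : Set V :=
  {c | A.Definable₁ L ({c} : Set V)}

/-- The assertion of Q1 for the model `U` and the cardinal `κ`: whenever `M` is an elementary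
substructure of `U` of cardinality `< κ`, `p` is a global `M`-invariant `1`-type with small cofinality on the right and
`b` realises `p` in an elementary extension `V` of `U`, the set `p(dcl(Mb))` is cofinal in
`p(dcl(Ub))`. -/
def CofinalityProperty (κ : Cardinal.{u}) (U : Type u) [L.Structure U] : Prop :=
  ∀ M : L.ElementarySubstructure U, #M < κ →
  ∀ p : Set (L.Formula (U ⊕ Fin 1)), IsGlobalType p → Invariant (M : Set U) p →
    SmallRight lt κ p →
  ∀ (V : Type u) (_ : L.Structure V) (ι : U ↪ₑ[L] V) (b : V), tp ι b = p →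
  ∀ c ∈ dcl L (Set.range ι ∪ {b}), tp ι c = p →
    ∃ e ∈ dcl L (ι '' (M : Set U) ∪ {b}), tp ι e = p ∧ (c = e ∨ Lt lt V c e)

end defs

end Pool.Agent.R466.OM
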