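import Pool.Agent.R466.OM.OMin

/-!
Elementary extensions, types and elementary substructures of ordered rational vector spaces.
-/

namespace Pool.Agent.R466.OM

open FirstOrder FirstOrder.Language FirstOrder.Language.Structure Cardinal

universe u w

/-- Realizing a family of formulas with the finite intersection property in an ultrapower. -/
theorem exists_ext {L : FirstOrder.Language.{0, 0}} (U : Type u) [L.Structure U] [Nonempty U]
    (S : Set (Set U)) (hS : ∀ G : Finset (Set U), (G : Set (Set U)) ⊆ S →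
      (⋂₀ (G : Set (Set U))).Nonempty) :
    ∃ (V : Type u) (_ : L.Structure V) (ι : U ↪ₑ[L] V) (b : V), ∀ φ : L.Formula (U ⊕ Fin 1),
      {x : U | φ.Realize (Sum.elim id (fun _ => x))} ∈ S →
        φ.Realize (Sum.elim ι (fun _ => b)) := by
  obtain ⟨D, hD⟩ := Ultrafilter.exists_ultrafilter_of_finite_inter_nonempty S hS
  refine ⟨(D : Filter U).Product (fun _ => U), inferInstance,
    ⟨fun u => ((fun _ => u : U → U) : (D : Filter U).Product (fun _ => U)), ?_⟩,
    ((fun x => x : U → U) : (D : Filter U).Product (fun _ => U)), ?_⟩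
  · intro n φ x
    have h := Ultraproduct.realize_formula_cast (M := fun _ : U => U) (u := D) φ
      (fun i => fun _ => x i)
    refine h.trans ?_
    exact Filter.eventually_const
  · intro φ hφ
    have h := Ultraproduct.realize_formula_cast (M := fun _ : U => U) (u := D) φ
      (Sum.elim (fun u _ => u) (fun _ x => x))
    have h2 : ∀ᶠ a : U in D, φ.Realize
        fun i => (Sum.elim (fun u _ => u) (fun _ x => x) : U ⊕ Fin 1 → (U → U)) i a := by
      refine Filter.mem_of_superset (hD hφ) fun a ha => ?_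
      have e : (fun i => (Sum.elim (fun u _ => u) (fun _ x => x) : U ⊕ Fin 1 → (U → U)) i a) =
          Sum.elim id (fun _ => a) := by
        funext i
        rcases i with i | i <;> rfl
      change φ.Realize _
      rw [e]
      exact ha
    have h3 := h.2 h2
    have e3 : (fun i => ((Sum.elim (fun u _ => u) (fun _ x => x) : U ⊕ Fin 1 → (U → U)) i :
        (D : Filter U).Product (fun _ => U))) =
        Sum.elim (fun u => ((fun _ => u : U → U) : (D : Filter U).Product (fun _ => U)))
          (fun _ => ((fun x => x : U → U) : (D : Filter U).Product (fun _ => U))) := by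
      funext i
      rcases i with i | i <;> rfl
    rw [e3] at h3
    exact h3

lemma lc_emb' {α : Type w} {P U : Type u} [AddCommGroup P] [Module ℚ P] [AddCommGroup U]
    [Module ℚ U] (j : P →ₗ[ℚ] U) (v : α → P) (f : α →₀ ℚ) :
    lc (fun a => j (v a)) f = j (lc v f) := by
  simp only [lc, Finsupp.linearCombination_apply, Finsupp.sum, map_sum, map_smul]

section

variable {U V : Type u} [AddCommGroup U] [LinearOrder U] [IsOrderedAddMonoid U]
  [Module ℚ U] [Nontrivial U] [OV.Structure U] [IsOV U]
  [AddCommGroup V] [LinearOrder V] [IsOrderedAddMonoid V]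
  [Module ℚ V] [Nontrivial V] [OV.Structure V] [IsOV V]

/-- An elementary embedding as a linear map. -/
def emLin (ι : U ↪ₑ[OV] V) : U →ₗ[ℚ] V where
  toFun := ι
  map_add' x y := by
    have h := ι.map_fun (OVFun.add : OV.Functions 2) ![x, y]
    rw [IsOV.add, IsOV.add] at h
    simpa using h
  map_smul' q x := by
    have h := ι.map_fun (OVFun.smul q : OV.Functions 1) ![x]
    rw [IsOV.smul, IsOV.smul] at h
    simpa using h

lemma emLin_lt (ι : U ↪ₑ[OV] V) (x y : U) : emLin ι x < emLin ι y ↔ x < y := by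
  have h := ι.map_rel (OVRel.lt : OV.Relations 2) ![x, y]
  rw [IsOV.lt, IsOV.lt] at h
  exact h

lemma lc_base (j : U →ₗ[ℚ] V) (f : ((U ⊕ Fin 1) ⊕ Fin 0) →₀ ℚ) :
    lc (Sum.elim (Sum.elim (fun u => j u) (fun _ => 0)) (default : Fin 0 → V)) f =
      j (lc (Sum.elim (Sum.elim (fun u => u) (fun _ => 0)) (default : Fin 0 → U)) f) := by
  rw [← lc_emb']
  congr 1
  funext i
  rcases i with (a | i) | i
  · rfl
  · simp
  · exact i.elim0

open Classical in
/-- The type of an element over `U` is determined by its cut. -/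
lemma type_eq (j j' : U →ₗ[ℚ] V) (hj : ∀ x y, j x < j y ↔ x < y)
    (hj' : ∀ x y, j' x < j' y ↔ x < y) (b b' : V)
    (h : ∀ u : U, (j u < b ↔ j' u < b') ∧ (b < j u ↔ b' < j' u)) (φ : OV.Formula (U ⊕ Fin 1)) :
    φ.Realize (Sum.elim (fun u => j u) (fun _ => b)) ↔
      φ.Realize (Sum.elim (fun u => j' u) (fun _ => b')) := by
  obtain ⟨Λ, hΛ⟩ := qe.{u} φ
  refine hΛ V V _ _ _ _ fun f _ => ?_
  rw [lc_split (fun u => j u) b, lc_split (fun u => j' u) b', lc_base, lc_base]
  set w := lc (Sum.elim (Sum.elim (fun u => u) (fun _ => 0)) (default : Fin 0 → U)) f with hw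
  set s := f (Sum.inl (Sum.inr 0)) with hsdef
  by_cases hs : s = 0
  · have e1 : j w + s • b = j w := by rw [hs, zero_smul, add_zero]
    have e2 : j' w + s • b' = j' w := by rw [hs, zero_smul, add_zero]
    rw [e1, e2]
    have h1 := hj 0 w
    have h2 := hj' 0 w
    have h3 := hj w 0
    have h4 := hj' w 0
    rw [map_zero] at h1 h2 h3 h4
    exact ⟨h1.trans h2.symm, h3.trans h4.symm⟩
  · have e1 : ∀ (k : U →ₗ[ℚ] V) (y : V), k w + s • y = s • (y - k ((-s⁻¹) • w)) := by
      intro k y
      rw [map_smul, smul_sub, smul_smul, mul_neg, mul_inv_cancel₀ hs, neg_smul, one_smul,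
        sub_neg_eq_add, add_comm]
    have e3 : ∀ y : V, (s • y < 0 ↔ 0 < (-s) • y) := by
      intro y
      rw [neg_smul, neg_pos]
    obtain ⟨h1, h2⟩ := h ((-s⁻¹) • w)
    rw [e1, e1, e3, e3]
    rcases lt_or_gt_of_ne hs with h3 | h3
    · rw [q_smul_pos_iff_of_neg h3, q_smul_pos_iff_of_neg h3, q_smul_pos_iff (neg_pos.2 h3),
        q_smul_pos_iff (neg_pos.2 h3), sub_neg, sub_neg, sub_pos, sub_pos]
      exact ⟨h2, h1⟩
    · rw [q_smul_pos_iff h3, q_smul_pos_iff h3, q_smul_pos_iff_of_neg (neg_neg_of_pos h3),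
        q_smul_pos_iff_of_neg (neg_neg_of_pos h3), sub_neg, sub_neg, sub_pos, sub_pos]
      exact ⟨h1, h2⟩

end

section sub

variable {U : Type u} [AddCommGroup U] [LinearOrder U] [IsOrderedAddMonoid U]
  [Module ℚ U] [Nontrivial U] [OV.Structure U] [IsOV U]

/-- The substructure given by a subspace. -/
def subS (P : Submodule ℚ U) : OV.Substructure U where
  carrier := P
  fun_mem := by
    intro n f x hx
    change OVFun n at f
    cases f with
    | zero =>
      rw [show funMap (L := OV) (OVFun.zero : OV.Functions 0) x = 0 from IsOV.zero x]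
      exact P.zero_mem
    | smul q =>
      rw [show funMap (L := OV) (OVFun.smul q : OV.Functions 1) x = q • x 0 from IsOV.smul q x]
      exact P.smul_mem _ (hx 0)
    | add =>
      rw [show funMap (L := OV) (OVFun.add : OV.Functions 2) x = x 0 + x 1 from IsOV.add x]
      exact P.add_mem (hx 0) (hx 1)

open Classical in
/-- A nonzero subspace is an elementary substructure. -/
def elemS (P : Submodule ℚ U) (hP : ∃ x ∈ P, x ≠ 0) : OV.ElementarySubstructure U :=
  ⟨subS P, by
    haveI : Nontrivial P := by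
      obtain ⟨x, hx, hx0⟩ := hP
      exact ⟨⟨x, hx⟩, 0, fun h => hx0 (congrArg Subtype.val h)⟩
    refine Substructure.isElementary_of_exists (subS P) fun n φ x a h => ?_
    obtain ⟨Λ, hΛ⟩ := qe.{u} φ
    set y : Fin n → P := fun i => ⟨(x i : U), (x i).2⟩ with hy
    have hcoe : ∀ (m : ℕ) (z : Fin m → P) (f : (Empty ⊕ Fin m) →₀ ℚ),
        lc (Sum.elim (default : Empty → U) (fun i => (z i : U))) f =
          ((lc (Sum.elim (default : Empty → P) z) f : P) : U) := by
      intro m z f
      have h1 := lc_emb' P.subtype (Sum.elim (default : Empty → P) z) f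
      rw [← Submodule.subtype_apply, ← h1]
      congr 1
      funext i
      rcases i with i | i
      · exact i.elim
      · rfl
    have hsame : ∀ (m : ℕ) (z : Fin m → P) (Λ' : Finset ((Empty ⊕ Fin m) →₀ ℚ)),
        SameSign Λ' (Sum.elim (default : Empty → P) z)
          (Sum.elim (default : Empty → U) (fun i => (z i : U))) := by
      intro m z Λ' f _
      rw [hcoe m z f]
      exact ⟨Iff.rfl, Iff.rfl⟩
    obtain ⟨b, hb⟩ := step Λ (default : Empty → P) y (default : Empty → U)
      (fun i => (y i : U)) (hsame n y _) a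
    refine ⟨⟨(b : U), b.2⟩, ?_⟩
    have h2 := hsame (n+1) (Fin.snoc (α := fun _ => P) y b) Λ
    have e2 : (fun i => ((Fin.snoc (α := fun _ => P) y b i : P) : U)) =
        Fin.snoc (α := fun _ => U) (fun i => (y i : U)) (b : U) := by
      funext i
      refine Fin.lastCases ?_ (fun i => ?_) i
      · simp
      · simp
    rw [e2] at h2
    have h3 : SameSign Λ (Sum.elim (default : Empty → U)
        (Fin.snoc (α := fun _ => U) (fun i => (y i : U)) a))
        (Sum.elim (default : Empty → U) (Fin.snoc (α := fun _ => U) (fun i => (y i : U)) (b : U))) :=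
      fun f hf => ⟨(hb f hf).1.symm.trans (h2 f hf).1, (hb f hf).2.symm.trans (h2 f hf).2⟩
    exact (hΛ U U _ _ _ _ h3).1 h⟩

end sub

end Pool.Agent.R466.OM
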