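import Pool.Agent.R466.OM.Ext

/-!
The counterexample.
-/

namespace Pool.Agent.R466.OM

open FirstOrder FirstOrder.Language FirstOrder.Language.Structure Cardinal

universe u w

section st

variable {V : Type u} [AddCommGroup V] [LinearOrder V] [IsOrderedAddMonoid V] [Module ℚ V]

/-- `x` has standard part `ρ` with respect to the unit `E`. -/
def St (E x : V) (ρ : ℝ) : Prop :=
  ∀ s : ℚ, (((s : ℝ) < ρ → s • E < x) ∧ (ρ < (s : ℝ) → x < s • E))

lemma smul_lt_smul_E {E : V} (hE : 0 < E) {s t : ℚ} (h : s < t) : s • E < t • E := by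
  have h1 : 0 < (t - s) • E := q_smul_pos (sub_pos.2 h) hE
  rw [sub_smul] at h1
  exact sub_pos.1 h1

lemma St.add {E x y : V} {ρ τ : ℝ} (hx : St E x ρ) (hy : St E y τ) : St E (x + y) (ρ + τ) := by
  intro s
  constructor
  · intro h
    obtain ⟨a, ha1, ha2⟩ := exists_rat_btwn (show (s : ℝ) - τ < ρ by linarith)
    have h1 := (hx a).1 ha2
    have h2 := (hy (s - a)).1 (by push_cast; linarith)
    have h3 := add_lt_add h1 h2
    rw [← add_smul, add_sub_cancel] at h3
    exact h3
  · intro h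
    obtain ⟨a, ha1, ha2⟩ := exists_rat_btwn (show ρ < (s : ℝ) - τ by linarith)
    have h1 := (hx a).2 ha1
    have h2 := (hy (s - a)).2 (by push_cast; linarith)
    have h3 := add_lt_add h1 h2
    rw [← add_smul, add_sub_cancel] at h3
    exact h3

lemma St.smul {E x : V} {ρ : ℝ} (hE : 0 < E) (hx : St E x ρ) (r : ℚ) :
    St E (r • x) ((r : ℝ) * ρ) := by
  intro s
  rcases lt_trichotomy r 0 with hr | hr | hr
  · have hr' : (r : ℝ) < 0 := by exact_mod_cast hr
    have e1 : ∀ y : V, (s • E < r • y ↔ y < (s / r) • E) := by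
      intro y
      have : r • y - s • E = r • (y - (s / r) • E) := by
        rw [smul_sub, smul_smul, mul_div_cancel₀ _ hr.ne]
      rw [← sub_pos, this, q_smul_pos_iff_of_neg hr, sub_neg]
    have e2 : ∀ y : V, (r • y < s • E ↔ (s / r) • E < y) := by
      intro y
      have : s • E - r • y = (-r) • (y - (s / r) • E) := by
        rw [smul_sub, smul_smul, neg_smul, neg_mul, mul_div_cancel₀ _ hr.ne, neg_smul]
        abel
      rw [← sub_pos, this, q_smul_pos_iff (neg_pos.2 hr), sub_pos]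
    rw [e1, e2]
    constructor
    · intro h
      refine (hx (s / r)).2 ?_
      push_cast
      rw [lt_div_iff_of_neg hr']
      linarith
    · intro h
      refine (hx (s / r)).1 ?_
      push_cast
      rw [div_lt_iff_of_neg hr']
      linarith
  · subst hr
    have e : (0 : ℚ) • x = (0 : ℚ) • E := by rw [zero_smul, zero_smul]
    rw [e]
    constructor
    · intro h
      refine smul_lt_smul_E hE ?_
      simp only [Rat.cast_zero, zero_mul] at h
      exact_mod_cast h
    · intro h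
      refine smul_lt_smul_E hE ?_
      simp only [Rat.cast_zero, zero_mul] at h
      exact_mod_cast h
  · have hr' : (0 : ℝ) < r := by exact_mod_cast hr
    have e1 : ∀ y : V, (s • E < r • y ↔ (s / r) • E < y) := by
      intro y
      have : r • y - s • E = r • (y - (s / r) • E) := by
        rw [smul_sub, smul_smul, mul_div_cancel₀ _ hr.ne']
      rw [← sub_pos, this, q_smul_pos_iff hr, sub_pos]
    have e2 : ∀ y : V, (r • y < s • E ↔ y < (s / r) • E) := by
      intro y
      have : s • E - r • y = r • ((s / r) • E - y) := by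
        rw [smul_sub, smul_smul, mul_div_cancel₀ _ hr.ne']
      rw [← sub_pos, this, q_smul_pos_iff hr, sub_pos]
    rw [e1, e2]
    constructor
    · intro h
      refine (hx (s / r)).1 ?_
      push_cast
      rw [div_lt_iff₀ hr']
      linarith
    · intro h
      refine (hx (s / r)).2 ?_
      push_cast
      rw [lt_div_iff₀ hr']
      linarith

lemma St.self {E : V} (hE : 0 < E) : St E E 1 := by
  intro s
  have e : E = (1 : ℚ) • E := (one_smul ℚ E).symm
  constructor
  · intro h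
    nth_rewrite 2 [e]
    exact smul_lt_smul_E hE (by exact_mod_cast h)
  · intro h
    nth_rewrite 1 [e]
    exact smul_lt_smul_E hE (by exact_mod_cast h)

lemma St.unique {E x : V} {ρ τ : ℝ} (hx : St E x ρ) (hy : St E x τ) : ρ = τ := by
  rcases lt_trichotomy ρ τ with h | h | h
  · obtain ⟨a, ha1, ha2⟩ := exists_rat_btwn h
    exact absurd ((hx a).2 ha1) ((hy a).1 ha2).asymm
  · exact h
  · obtain ⟨a, ha1, ha2⟩ := exists_rat_btwn h
    exact absurd ((hy a).2 ha1) ((hx a).1 ha2).asymm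

end st

section main

variable {U : Type u} [AddCommGroup U] [LinearOrder U] [IsOrderedAddMonoid U]
  [Module ℚ U] [Nontrivial U] [OV.Structure U] [IsOV U]

lemma def_Ioi (A : Set U) (a : U) (ha : a ∈ A) : A.Definable₁ OV (Set.Ioi a) := by
  refine Set.definable_iff_exists_formula_sum.2
    ⟨ltSym.formula₂ (Term.var (Sum.inl ⟨a, ha⟩)) (Term.var (Sum.inr 0)), ?_⟩
  ext v
  have h := (Formula.realize_rel₂ (R := ltSym) (t₁ := (Term.var (Sum.inl ⟨a, ha⟩)))
    (t₂ := (Term.var (Sum.inr 0))) (v := Sum.elim (fun x : A => (x : U)) v))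
  refine Iff.trans ?_ h.symm
  exact (Lt_iff a (v 0)).symm

lemma def_Iio (A : Set U) (a : U) (ha : a ∈ A) : A.Definable₁ OV (Set.Iio a) := by
  refine Set.definable_iff_exists_formula_sum.2
    ⟨ltSym.formula₂ (Term.var (Sum.inr 0)) (Term.var (Sum.inl ⟨a, ha⟩)), ?_⟩
  ext v
  have h := (Formula.realize_rel₂ (R := ltSym) (t₂ := (Term.var (Sum.inl ⟨a, ha⟩)))
    (t₁ := (Term.var (Sum.inr 0))) (v := Sum.elim (fun x : A => (x : U)) v))
  refine Iff.trans ?_ h.symm
  exact (Lt_iff (v 0) a).symm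

open Classical in
lemma sat_between {κ : Cardinal.{u}} (hκ : ℵ₀ < κ) (hU : Saturated OV κ U) (C D : Set U)
    (hC : C.Countable) (hD : D.Countable) (h : ∀ c ∈ C, ∀ d ∈ D, c < d) :
    ∃ x, (∀ c ∈ C, c < x) ∧ ∀ d ∈ D, x < d := by
  haveI := densely U
  have hcard : #(C ∪ D : Set U) < κ :=
    lt_of_le_of_lt (Cardinal.le_aleph0_iff_set_countable.2 (hC.union hD)) hκ
  obtain ⟨x, hx⟩ := hU (C ∪ D) hcard (Set.Ioi '' C ∪ Set.Iio '' D) (by
    rintro S (⟨c, hc, rfl⟩ | ⟨d, hd, rfl⟩)
    · exact def_Ioi _ c (Or.inl hc)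
    · exact def_Iio _ d (Or.inr hd)) (by
    intro G hG
    have hg : ∀ S ∈ G, ∃ c, (c ∈ C ∧ S = Set.Ioi c) ∨ (c ∈ D ∧ S = Set.Iio c) := by
      intro S hS
      rcases hG hS with ⟨c, hc, rfl⟩ | ⟨d, hd, rfl⟩
      · exact ⟨c, Or.inl ⟨hc, rfl⟩⟩
      · exact ⟨d, Or.inr ⟨hd, rfl⟩⟩
    choose! g hg using hg
    obtain ⟨x, hx1, hx2⟩ := Order.exists_between_finsets ((G.image g).filter (· ∈ C))
      ((G.image g).filter (· ∈ D)) (by
        intro a ha b hb
        exact h a (Finset.mem_filter.1 ha).2 b (Finset.mem_filter.1 hb).2)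
    refine ⟨x, fun S hS => ?_⟩
    rcases hg S hS with ⟨h1, h2⟩ | ⟨h1, h2⟩
    · rw [h2]
      exact hx1 _ (Finset.mem_filter.2 ⟨Finset.mem_image_of_mem _ hS, h1⟩)
    · rw [h2]
      exact hx2 _ (Finset.mem_filter.2 ⟨Finset.mem_image_of_mem _ hS, h1⟩))
  refine ⟨x, fun c hc => ?_, fun d hd => ?_⟩
  · exact hx _ (Or.inl ⟨c, hc, rfl⟩)
  · exact hx _ (Or.inr ⟨d, hd, rfl⟩)

/-- The lower part of the cut immediately to the left of `{q e | q > √2}`. -/
def Low (e : U) : Set U := {u | ∀ q : ℚ, √2 < (q : ℝ) → u < q • e}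

open Classical in
theorem main_inst {κ : Cardinal.{u}} (hκ : ℵ₀ < κ) (hT : U ⊨ TQ) (hU : Saturated OV κ U) :
    ¬ CofinalityProperty ltSym κ U := by
  haveI := densely U
  obtain ⟨e, he⟩ := exists_gt (0 : U)
  -- an infinitesimal
  obtain ⟨i0, hi1, hi2⟩ := sat_between hκ hU {0} (Set.range fun q : {q : ℚ // 0 < q} => q.1 • e)
    (Set.countable_singleton 0) (Set.countable_range _) (by
      rintro c hc d ⟨q, rfl⟩
      rw [Set.mem_singleton_iff.1 hc]
      exact q_smul_pos q.2 he)
  have hi1 : 0 < i0 := hi1 0 rfl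
  have hi2 : ∀ q : ℚ, 0 < q → i0 < q • e := fun q hq => hi2 _ ⟨⟨q, hq⟩, rfl⟩
  -- properties of the cut
  have hlow_i : ∀ u : U, u - i0 ∈ Low e ↔ u ∈ Low e := by
    intro u
    constructor
    · intro h q hq
      obtain ⟨a, ha1, ha2⟩ := exists_rat_btwn hq
      have h1 := h a ha1
      have h2 := hi2 (q - a) (sub_pos.2 (by exact_mod_cast ha2))
      have h3 := add_lt_add h1 h2
      rw [sub_add_cancel, ← add_smul, add_sub_cancel] at h3
      exact h3
    · intro h q hq
      exact lt_of_le_of_lt (sub_le_self u hi1.le) (h q hq)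
  have hs_low : ∀ s : ℚ, (s : ℝ) < √2 → s • e ∈ Low e := by
    intro s hs q hq
    exact smul_lt_smul_E he (by exact_mod_cast hs.trans hq)
  -- the extension
  obtain ⟨V, iV, ι, b, hb⟩ := exists_ext (L := OV) U
    ((fun a => Set.Ioi a) '' Low e ∪ (fun q : ℚ => Set.Iio (q • e)) '' {q : ℚ | √2 < (q : ℝ)}) (by
      intro G hG
      have hg : ∀ S ∈ G, ∃ c, (c ∈ Low e ∧ S = Set.Ioi c) ∨
          ((∃ q : ℚ, √2 < (q : ℝ) ∧ c = q • e) ∧ S = Set.Iio c) := by
        intro S hS
        rcases hG hS with ⟨c, hc, rfl⟩ | ⟨q, hq, rfl⟩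
        · exact ⟨c, Or.inl ⟨hc, rfl⟩⟩
        · exact ⟨q • e, Or.inr ⟨⟨q, hq, rfl⟩, rfl⟩⟩
      choose! g hg using hg
      obtain ⟨x, hx1, hx2⟩ := Order.exists_between_finsets ((G.image g).filter (· ∈ Low e))
        ((G.image g).filter (fun c => ∃ q : ℚ, √2 < (q : ℝ) ∧ c = q • e)) (by
          intro a ha c hc
          obtain ⟨q, hq, hqc⟩ := (Finset.mem_filter.1 hc).2
          rw [hqc]
          exact (Finset.mem_filter.1 ha).2 q hq)
      refine ⟨x, fun S hS => ?_⟩
      rcases hg S hS with ⟨h1, h2⟩ | ⟨h1, h2⟩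
      · rw [h2]
        exact hx1 _ (Finset.mem_filter.2 ⟨Finset.mem_image_of_mem _ hS, h1⟩)
      · rw [h2]
        exact hx2 _ (Finset.mem_filter.2 ⟨Finset.mem_image_of_mem _ hS, h1⟩))
  have hVT : V ⊨ TQ := (ι.theory_model_iff TQ).1 hT
  haveI hVne : Nonempty V := ⟨b⟩
  obtain ⟨i1, i2, i3, i4, i5, i6⟩ := exists_inst hVT
  haveI := densely V
  set j : U →ₗ[ℚ] V := emLin ι with hj
  have hjι : ∀ u, ι u = j u := fun u => rfl
  have hjlt : ∀ x y, j x < j y ↔ x < y := emLin_lt ι
  have hb1 : ∀ u ∈ Low e, j u < b := by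
    intro u hu
    have h := hb (ltSym.formula₂ (Term.var (Sum.inl u)) (Term.var (Sum.inr 0))) (Or.inl ⟨u, hu, by
      ext x
      have h := (Formula.realize_rel₂ (R := ltSym) (t₁ := (Term.var (Sum.inl u)))
        (t₂ := (Term.var (Sum.inr 0))) (v := Sum.elim (id : U → U) (fun _ : Fin 1 => x)))
      refine Iff.trans ?_ h.symm
      exact (Lt_iff u x).symm⟩)
    have h2 := (Formula.realize_rel₂ (R := ltSym) (t₁ := (Term.var (Sum.inl u)))
        (t₂ := (Term.var (Sum.inr 0))) (v := Sum.elim ι (fun _ : Fin 1 => b))).1 h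
    exact (Lt_iff (ι u) b).1 h2
  have hb2 : ∀ q : ℚ, √2 < (q : ℝ) → b < j (q • e) := by
    intro q hq
    have h := hb (ltSym.formula₂ (Term.var (Sum.inr 0)) (Term.var (Sum.inl (q • e))))
      (Or.inr ⟨q, hq, by
        ext x
        have h := (Formula.realize_rel₂ (R := ltSym) (t₂ := (Term.var (Sum.inl (q • e))))
          (t₁ := (Term.var (Sum.inr 0))) (v := Sum.elim (id : U → U) (fun _ : Fin 1 => x)))
        refine Iff.trans ?_ h.symm
        exact (Lt_iff x (q • e)).symm⟩)
    have h2 := (Formula.realize_rel₂ (R := ltSym) (t₂ := (Term.var (Sum.inl (q • e))))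
        (t₁ := (Term.var (Sum.inr 0))) (v := Sum.elim ι (fun _ : Fin 1 => b))).1 h
    exact (Lt_iff b (ι (q • e))).1 h2
  have hnl : ∀ u, u ∉ Low e → ∃ q : ℚ, √2 < (q : ℝ) ∧ q • e ≤ u := by
    intro u hu
    by_contra hcon
    push Not at hcon
    exact hu fun q hq => hcon q hq
  have hcut1 : ∀ u, j u < b ↔ u ∈ Low e := by
    intro u
    refine ⟨fun h => ?_, hb1 u⟩
    by_contra hu
    obtain ⟨q, hq, hqu⟩ := hnl u hu
    have h2 : j (q • e) ≤ j u := by
      rw [← not_lt, hjlt, not_lt]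
      exact hqu
    exact absurd ((hb2 q hq).trans_le h2) h.asymm
  have hcut2 : ∀ u, b < j u ↔ u ∉ Low e := by
    intro u
    refine ⟨fun h hu => absurd (hb1 u hu) h.asymm, fun hu => ?_⟩
    obtain ⟨q, hq, hqu⟩ := hnl u hu
    have h2 : j (q • e) ≤ j u := by
      rw [← not_lt, hjlt, not_lt]
      exact hqu
    exact (hb2 q hq).trans_le h2
  have hbne : ∀ u, b ≠ j u := by
    intro u h
    by_cases hu : u ∈ Low e
    · exact absurd h (hb1 u hu).ne'
    · exact absurd h ((hcut2 u).2 hu).ne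
  -- the element c
  set c : V := b + j i0 with hc
  have hbc : b < c := by
    rw [hc]
    have : 0 < j i0 := by
      have := (hjlt 0 i0).2 hi1
      rwa [map_zero] at this
    exact lt_add_of_pos_right b this
  have hcc1 : ∀ u, j u < c ↔ u ∈ Low e := by
    intro u
    rw [← hlow_i, ← hcut1, hc, map_sub, sub_lt_iff_lt_add]
  have hcc2 : ∀ u, c < j u ↔ u ∉ Low e := by
    intro u
    rw [← hlow_i, ← hcut2, hc, map_sub, lt_sub_iff_add_lt]
  have htpc : tp (L := OV) ι c = tp (L := OV) ι b := by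
    ext φ
    exact type_eq j j hjlt hjlt c b (fun u => ⟨(hcc1 u).trans (hcut1 u).symm,
      (hcc2 u).trans (hcut2 u).symm⟩) φ
  -- the small model
  have heP : ∃ x ∈ Submodule.span ℚ ({e} : Set U), x ≠ 0 :=
    ⟨e, Submodule.mem_span_singleton_self e, he.ne'⟩
  have hMmem : ∀ x : U, x ∈ elemS (Submodule.span ℚ ({e} : Set U)) heP ↔ ∃ q : ℚ, q • e = x := by
    intro x
    exact Submodule.mem_span_singleton
  have hcount : ((elemS (Submodule.span ℚ ({e} : Set U)) heP : Set U)).Countable := by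
    refine (Set.countable_range (fun q : ℚ => q • e)).mono ?_
    intro x hx
    exact (hMmem x).1 hx
  have hMcard : #(elemS (Submodule.span ℚ ({e} : Set U)) heP) < κ :=
    lt_of_le_of_lt (Cardinal.le_aleph0_iff_set_countable.2 hcount) hκ
  -- rewriting the condition leF
  have hle : ∀ d, leF ltSym d ∈ tp (L := OV) ι b ↔ b < j d := by
    intro d
    have h1 : leF ltSym d ∈ tp (L := OV) ι b ↔ (b < j d ∨ b = j d) := by
      have h2 := (Formula.realize_rel₂ (R := ltSym) (t₂ := (Term.var (Sum.inl d)))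
        (t₁ := (Term.var (Sum.inr 0))) (v := Sum.elim ι (fun _ : Fin 1 => b)))
      have h3 := (Formula.realize_equal (L := OV) (t₂ := (Term.var (Sum.inl d)))
        (t₁ := (Term.var (Sum.inr 0))) (x := Sum.elim ι (fun _ : Fin 1 => b)))
      refine (Formula.realize_sup).trans (or_congr (h2.trans (Lt_iff b (ι d))) h3)
    rw [h1]
    exact ⟨fun h => h.resolve_right (hbne d), Or.inl⟩
  intro hprop
  obtain ⟨x, hxd, hxtp, hcx⟩ := hprop (elemS (Submodule.span ℚ ({e} : Set U)) heP) hMcard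
    (tp (L := OV) ι b) ⟨V, iV, ι, b, rfl⟩ (by
      intro σ hσ φ
      have hσe : ∀ q : ℚ, σ (q • e) = q • e := fun q => hσ _ ((hMmem _).2 ⟨q, rfl⟩)
      have hσlt : ∀ x y : U, σ x < σ y ↔ x < y := emLin_lt σ.toElementaryEmbedding
      have hlow : ∀ u, σ u ∈ Low e ↔ u ∈ Low e := by
        intro u
        constructor
        · intro h q hq
          have := h q hq
          rw [← hσe q, hσlt] at this
          exact this
        · intro h q hq
          rw [← hσe q, hσlt]
          exact h q hq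
      have h1 : φ.relabel (Sum.map σ id) ∈ tp (L := OV) ι b ↔
          φ.Realize (Sum.elim (fun u => ι (σ u)) (fun _ : Fin 1 => b)) := by
        refine (Formula.realize_relabel).trans ?_
        have : (Sum.elim ι (fun _ : Fin 1 => b)) ∘ (Sum.map σ id) =
            Sum.elim (fun u => ι (σ u)) (fun _ : Fin 1 => b) := by
          funext i
          rcases i with i | i <;> rfl
        rw [this]
      rw [h1]
      exact type_eq j (j ∘ₗ emLin σ.toElementaryEmbedding) hjlt
        (fun x y => (hjlt _ _).trans (hσlt x y)) b b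
        (fun u => ⟨(hcut1 u).trans ((hlow u).symm.trans (hcut1 (σ u)).symm),
          (hcut2 u).trans ((not_congr (hlow u)).symm.trans (hcut2 (σ u)).symm)⟩) φ)
    (by
      refine ⟨(fun q : ℚ => q • e) '' {q : ℚ | √2 < (q : ℝ)}, ?_, ?_, ?_⟩
      · exact lt_of_le_of_lt (Cardinal.le_aleph0_iff_set_countable.2
          ((Set.to_countable _).image _)) hκ
      · rintro _ ⟨q, hq, rfl⟩
        exact (hle _).2 (hb2 q hq)
      · intro d hd
        obtain ⟨q, hq, hqd⟩ := hnl d ((hcut2 d).1 ((hle d).1 hd))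
        exact ⟨q • e, ⟨q, hq, rfl⟩, hqd.eq_or_lt.imp id (Lt_iff _ _).2⟩)
    V iV ι b rfl c (by
      refine Set.definable_iff_exists_formula_sum.2 ⟨Term.equal (Term.var (Sum.inr 0))
        (ta (Term.var (Sum.inl ⟨b, Or.inr rfl⟩)) (Term.var (Sum.inl ⟨ι i0, Or.inl ⟨i0, rfl⟩⟩))),
          ?_⟩
      ext v
      refine Iff.trans ?_ (Formula.realize_equal).symm
      rw [realize_ta]
      change v 0 = c ↔ v 0 = ra b (ι i0)
      have : ra b (ι i0) = c := IsOV.add ![b, ι i0]
      rw [this]) htpc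
  -- the contradiction
  set E : V := j e with hE
  have hE0 : 0 < E := by
    have := (hjlt 0 e).2 he
    rwa [map_zero] at this
  have hjs : ∀ s : ℚ, j (s • e) = s • E := fun s => map_smul j s e
  have hStb : St E b √2 := by
    intro s
    rw [← hjs]
    exact ⟨fun h => hb1 _ (hs_low s h), fun h => hb2 s h⟩
  have hStx : St E x √2 := by
    intro s
    rw [← hjs]
    constructor
    · intro h
      have h1 : ltSym.formula₂ (Term.var (Sum.inl (s • e))) (Term.var (Sum.inr 0)) ∈
          tp (L := OV) ι b := by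
        refine (Formula.realize_rel₂ (R := ltSym) (t₁ := (Term.var (Sum.inl (s • e))))
          (t₂ := (Term.var (Sum.inr 0))) (v := Sum.elim ι (fun _ : Fin 1 => b))).2 ?_
        exact (Lt_iff (ι (s • e)) b).2 (hb1 _ (hs_low s h))
      rw [← hxtp] at h1
      have h2 := (Formula.realize_rel₂ (R := ltSym) (t₁ := (Term.var (Sum.inl (s • e))))
          (t₂ := (Term.var (Sum.inr 0))) (v := Sum.elim ι (fun _ : Fin 1 => x))).1 h1
      exact (Lt_iff (ι (s • e)) x).1 h2
    · intro h
      have h1 : ltSym.formula₂ (Term.var (Sum.inr 0)) (Term.var (Sum.inl (s • e))) ∈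
          tp (L := OV) ι b := by
        refine (Formula.realize_rel₂ (R := ltSym) (t₂ := (Term.var (Sum.inl (s • e))))
          (t₁ := (Term.var (Sum.inr 0))) (v := Sum.elim ι (fun _ : Fin 1 => b))).2 ?_
        exact (Lt_iff b (ι (s • e))).2 (hb2 s h)
      rw [← hxtp] at h1
      have h2 := (Formula.realize_rel₂ (R := ltSym) (t₂ := (Term.var (Sum.inl (s • e))))
          (t₁ := (Term.var (Sum.inr 0))) (v := Sum.elim ι (fun _ : Fin 1 => x))).1 h1
      exact (Lt_iff x (ι (s • e))).1 h2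
  have hxs : x ∈ Submodule.span ℚ ({E, b} : Set V) := by
    have h1 := dcl_le_span _ hxd
    refine Submodule.span_le.2 ?_ h1
    rintro y (⟨m, hm, rfl⟩ | hy)
    · obtain ⟨q, rfl⟩ := (hMmem m).1 hm
      change j (q • e) ∈ _
      rw [hjs]
      exact Submodule.smul_mem _ _ (Submodule.subset_span (Or.inl rfl))
    · rw [Set.mem_singleton_iff.1 hy]
      exact Submodule.subset_span (Or.inr rfl)
  obtain ⟨q, r, hqr⟩ := Submodule.mem_span_pair.1 hxs
  have hStx2 : St E x ((q : ℝ) * 1 + (r : ℝ) * √2) := by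
    rw [← hqr]
    exact ((St.self hE0).smul hE0 q).add (hStb.smul hE0 r)
  have heq := hStx.unique hStx2
  have hirr : Irrational (√2) := irrational_sqrt_two
  have hr : r = 1 := by
    by_contra hr
    have h1 : (1 : ℝ) - r ≠ 0 := by
      intro h
      apply hr
      have : (r : ℝ) = 1 := by linarith
      exact_mod_cast this
    apply hirr
    refine ⟨q / (1 - r), ?_⟩
    push_cast
    rw [div_eq_iff h1]
    linarith
  have hq : q = 0 := by
    rw [hr] at heq
    have : (q : ℝ) = 0 := by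
      push_cast at heq
      linarith
    exact_mod_cast this
  have hxb : x = b := by
    rw [← hqr, hq, hr, zero_smul, one_smul, zero_add]
  rw [hxb] at hcx
  rcases hcx with h | h
  · exact hbc.ne' h
  · exact absurd ((Lt_iff _ _).1 h) hbc.asymm

end main

/-- The cofinality property fails in every `κ`-saturated model of `TQ`, `κ > ℵ₀`. -/
theorem main {κ : Cardinal.{u}} (hκ : ℵ₀ < κ) (U : Type u) [OV.Structure U] (hT : U ⊨ TQ)
    (hU : Saturated OV κ U) : ¬ CofinalityProperty ltSym κ U := by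
  haveI hne : Nonempty U := ⟨rz U⟩
  obtain ⟨i1, i2, i3, i4, i5, i6⟩ := exists_inst hT
  exact main_inst hκ hT hU

end Pool.Agent.R466.OM
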