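import Pool.Agent.R466.OM.QE

/-!
Models of the complete theory of the ordered rational vector space `ℚ` are ordered rational vector
spaces.
-/

namespace Pool.Agent.R466.OM

open FirstOrder FirstOrder.Language FirstOrder.Language.Structure

universe u w

/-- The complete theory of the ordered rational vector space `ℚ`. -/
noncomputable def TQ : OV.Theory := @FirstOrder.Language.completeTheory OV ℚ (ovStr ℚ)

lemma transfer {N : Type u} [OV.Structure N] [Nonempty N] (hN : N ⊨ TQ) {k : ℕ}
    (φ : OV.BoundedFormula Empty k)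
    (h : ∀ xs : Fin k → ℚ, @BoundedFormula.Realize OV ℚ (ovStr ℚ) Empty k φ default xs)
    (xs : Fin k → N) : φ.Realize (default : Empty → N) xs := by
  have h1 : φ.alls ∈ TQ := by
    letI := ovStr ℚ
    change ℚ ⊨ φ.alls
    refine BoundedFormula.realize_alls.2 (fun ys => ?_)
    have e : ∀ a b : Empty → ℚ, a = b := fun a b => funext fun x => x.elim
    exact (iff_of_eq (congrArg (fun d => φ.Realize d ys) (e _ _))).1 (h ys)
  have h2 : N ⊨ φ.alls := hN.realize_of_mem _ h1
  have e : ∀ a b : Empty → N, a = b := fun a b => funext fun x => x.elim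
  exact (iff_of_eq (congrArg (fun d => φ.Realize d xs) (e _ _))).1
    (BoundedFormula.realize_alls.1 h2 xs)

section ops

variable {N : Type u} [OV.Structure N]

def rz (N : Type u) [OV.Structure N] : N := funMap (L := OV) (OVFun.zero : OV.Functions 0) ![]
def ra (x y : N) : N := funMap (L := OV) (OVFun.add : OV.Functions 2) ![x, y]
def rm (q : ℚ) (x : N) : N := funMap (L := OV) (OVFun.smul q : OV.Functions 1) ![x]
def rl (x y : N) : Prop := RelMap (L := OV) (OVRel.lt : OV.Relations 2) ![x, y]

variable {α : Type w}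

def tz : OV.Term α := Term.func (L := OV) (OVFun.zero : OV.Functions 0) ![]
def ta (s t : OV.Term α) : OV.Term α := Term.func (L := OV) (OVFun.add : OV.Functions 2) ![s, t]
def tm (q : ℚ) (s : OV.Term α) : OV.Term α :=
  Term.func (L := OV) (OVFun.smul q : OV.Functions 1) ![s]

@[simp] lemma realize_tz (v : α → N) : (tz (α := α)).realize v = rz N := by
  change funMap _ _ = funMap _ _
  congr 1
  exact Subsingleton.elim _ _

@[simp] lemma realize_ta (v : α → N) (s t : OV.Term α) :
    (ta s t).realize v = ra (s.realize v) (t.realize v) := by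
  change funMap _ _ = funMap _ _
  congr 1
  funext i
  fin_cases i <;> rfl

@[simp] lemma realize_tm (v : α → N) (q : ℚ) (s : OV.Term α) :
    (tm q s).realize v = rm q (s.realize v) := by
  change funMap _ _ = funMap _ _
  congr 1
  funext i
  fin_cases i
  rfl

/-- The formula `s < t`. -/
def bl {n : ℕ} (s t : OV.Term (α ⊕ Fin n)) : OV.BoundedFormula α n := ltSym.boundedFormula₂ s t

@[simp] lemma realize_bl {n : ℕ} (v : α → N) (xs : Fin n → N) (s t : OV.Term (α ⊕ Fin n)) :
    (bl s t).Realize v xs ↔ rl (s.realize (Sum.elim v xs)) (t.realize (Sum.elim v xs)) :=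
  BoundedFormula.realize_rel₂

@[simp] lemma rzQ : @rz ℚ (ovStr ℚ) = 0 := rfl
@[simp] lemma raQ (x y : ℚ) : @ra ℚ (ovStr ℚ) x y = x + y := rfl
@[simp] lemma rmQ (q x : ℚ) : @rm ℚ (ovStr ℚ) q x = q * x := rfl
@[simp] lemma rlQ (x y : ℚ) : @rl ℚ (ovStr ℚ) x y ↔ x < y := Iff.rfl

end ops

section axioms

variable {N : Type u} [OV.Structure N] [Nonempty N] (hN : N ⊨ TQ)
include hN

lemma ax_assoc (x y z : N) : ra (ra x y) z = ra x (ra y z) := by
  have h := transfer hN (k := 3) (Term.bdEqual (ta (ta (&0) (&1)) (&2)) (ta (&0) (ta (&1) (&2))))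
    (by intro xs; simp [add_assoc]) ![x, y, z]
  simpa using h

lemma ax_comm (x y : N) : ra x y = ra y x := by
  have h := transfer hN (k := 2) (Term.bdEqual (ta (&0) (&1)) (ta (&1) (&0)))
    (by intro xs; simp [add_comm]) ![x, y]
  simpa using h

lemma ax_zero_add (x : N) : ra (rz N) x = x := by
  have h := transfer hN (k := 1) (Term.bdEqual (ta tz (&0)) (&0))
    (by intro xs; simp) ![x]
  simpa using h

lemma ax_neg_add (x : N) : ra (rm (-1) x) x = rz N := by
  have h := transfer hN (k := 1) (Term.bdEqual (ta (tm (-1) (&0)) (&0)) tz)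
    (by intro xs; simp) ![x]
  simpa using h

lemma ax_smul_add (q : ℚ) (x y : N) : rm q (ra x y) = ra (rm q x) (rm q y) := by
  have h := transfer hN (k := 2) (Term.bdEqual (tm q (ta (&0) (&1))) (ta (tm q (&0)) (tm q (&1))))
    (by intro xs; simp [mul_add]) ![x, y]
  simpa using h

lemma ax_add_smul (q r : ℚ) (x : N) : rm (q + r) x = ra (rm q x) (rm r x) := by
  have h := transfer hN (k := 1) (Term.bdEqual (tm (q + r) (&0)) (ta (tm q (&0)) (tm r (&0))))
    (by intro xs; simp [add_mul]) ![x]
  simpa using h

lemma ax_mul_smul (q r : ℚ) (x : N) : rm (q * r) x = rm q (rm r x) := by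
  have h := transfer hN (k := 1) (Term.bdEqual (tm (q * r) (&0)) (tm q (tm r (&0))))
    (by intro xs; simp [mul_assoc]) ![x]
  simpa using h

lemma ax_one_smul (x : N) : rm 1 x = x := by
  have h := transfer hN (k := 1) (Term.bdEqual (tm 1 (&0)) (&0))
    (by intro xs; simp) ![x]
  simpa using h

lemma ax_irrefl (x : N) : ¬ rl x x := by
  have h := transfer hN (k := 1) (bl (&0) (&0)).not
    (by intro xs; simp) ![x]
  simpa using h

lemma ax_trans (x y z : N) (h1 : rl x y) (h2 : rl y z) : rl x z := by
  have h := transfer hN (k := 3) ((bl (&0) (&1)).imp ((bl (&1) (&2)).imp (bl (&0) (&2))))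
    (by
      intro xs
      simp only [BoundedFormula.realize_imp, realize_bl, rlQ]
      exact fun a b => a.trans b) ![x, y, z]
  simp only [BoundedFormula.realize_imp, realize_bl] at h
  simpa using h (by simpa using h1) (by simpa using h2)

lemma ax_total (x y : N) : rl x y ∨ x = y ∨ rl y x := by
  have h := transfer hN (k := 2) ((bl (&0) (&1)) ⊔ ((Term.bdEqual (&0) (&1)) ⊔ (bl (&1) (&0))))
    (by
      intro xs
      simp only [BoundedFormula.realize_sup, realize_bl, rlQ, BoundedFormula.realize_bdEqual]
      exact lt_trichotomy _ _) ![x, y]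
  simpa using h

lemma ax_add_lt (x y z : N) (h1 : rl x y) : rl (ra x z) (ra y z) := by
  have h := transfer hN (k := 3) ((bl (&0) (&1)).imp (bl (ta (&0) (&2)) (ta (&1) (&2))))
    (by
      intro xs
      simp only [BoundedFormula.realize_imp, realize_bl, rlQ, realize_ta, raQ]
      exact fun a => add_lt_add_left a _) ![x, y, z]
  simp only [BoundedFormula.realize_imp, realize_bl] at h
  simpa using h (by simpa using h1)

lemma ax_nontriv : ∃ x : N, x ≠ rz N := by
  have h := transfer hN (k := 0) (Term.bdEqual (&0) tz).not.ex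
    (by
      intro xs
      letI := ovStr ℚ
      refine BoundedFormula.realize_ex.2 ⟨(1 : ℚ), ?_⟩
      simp [Fin.snoc]) ![]
  obtain ⟨x, hx⟩ := BoundedFormula.realize_ex.1 h
  refine ⟨x, ?_⟩
  simpa using hx

open Classical in
/-- Models of `TQ` are ordered rational vector spaces. -/
theorem exists_inst : ∃ (_ : AddCommGroup N) (_ : LinearOrder N) (_ : Module ℚ N),
    IsOrderedAddMonoid N ∧ Nontrivial N ∧ IsOV N := by
  letI iz : Zero N := ⟨rz N⟩
  letI ia : Add N := ⟨ra⟩
  letI ineg : Neg N := ⟨rm (-1)⟩
  letI ig : AddGroup N := AddGroup.ofLeftAxioms (ax_assoc hN) (ax_zero_add hN) (ax_neg_add hN)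
  letI icg : AddCommGroup N := { ig with add_comm := ax_comm hN }
  letI ism : SMul ℚ N := ⟨rm⟩
  letI im : Module ℚ N := Module.ofMinimalAxioms (ax_smul_add hN) (ax_add_smul hN)
    (ax_mul_smul hN) (ax_one_smul hN)
  haveI ist : IsStrictTotalOrder N rl :=
    { trichotomous := fun a b h1 h2 => by
        rcases ax_total hN a b with h | h | h
        · exact absurd h h1
        · exact h
        · exact absurd h h2
      irrefl := ax_irrefl hN
      trans := ax_trans hN }
  letI il : LinearOrder N := linearOrderOfSTO rl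
  have hadd : ∀ a b c : N, a < b → a + c < b + c := fun a b c h => ax_add_lt hN a b c h
  haveI io : IsOrderedAddMonoid N :=
    { add_le_add_left := fun a b h c => by
        rcases h.lt_or_eq with h | h
        · have := hadd _ _ c h
          first
            | exact this.le
            | (rw [add_comm c a, add_comm c b]; exact this.le)
        · rw [h] }
  obtain ⟨x, hx⟩ := ax_nontriv hN
  refine ⟨icg, il, im, io, ⟨x, 0, hx⟩, ?_⟩
  refine ⟨fun x => ?_, fun q x => ?_, fun x => ?_, fun x => ?_⟩
  · change funMap _ _ = funMap _ _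
    congr 1
    exact Subsingleton.elim _ _
  · change funMap _ _ = funMap _ _
    congr 1
    funext i
    fin_cases i
    rfl
  · change funMap _ _ = funMap _ _
    congr 1
    funext i
    fin_cases i <;> rfl
  · have : x = ![x 0, x 1] := by
      funext i
      fin_cases i <;> rfl
    rw [this]
    exact Iff.rfl

end axioms

end Pool.Agent.R466.OM
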