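import Pool.Agent.R466.OM.Mod
import Pool.Agent.R466.OM.Defs

/-!
O-minimality of the theory of ordered rational vector spaces, and definable closure.
-/

namespace Pool.Agent.R466.OM

open FirstOrder FirstOrder.Language FirstOrder.Language.Structure

universe u w

lemma lc_split {α : Type w} {N : Type u} [AddCommGroup N] [Module ℚ N] (v : α → N) (x : N)
    (f : ((α ⊕ Fin 1) ⊕ Fin 0) →₀ ℚ) :
    lc (Sum.elim (Sum.elim v (fun _ => x)) (default : Fin 0 → N)) f =
      lc (Sum.elim (Sum.elim v (fun _ => 0)) (default : Fin 0 → N)) f +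
        f (Sum.inl (Sum.inr 0)) • x := by
  have h : Finsupp.linearCombination ℚ
        (Sum.elim (Sum.elim v (fun _ => x)) (default : Fin 0 → N)) =
      (Finsupp.linearCombination ℚ
        (Sum.elim (Sum.elim v (fun _ => 0)) (default : Fin 0 → N))) +
        (LinearMap.toSpanSingleton ℚ N x) ∘ₗ
          (Finsupp.lapply (Sum.inl (Sum.inr (0 : Fin 1)) : (α ⊕ Fin 1) ⊕ Fin 0)) := by
    refine Finsupp.lhom_ext' fun i => LinearMap.ext_ring ?_
    rcases i with (a | i) | i
    · simp
    · obtain rfl : i = 0 := Subsingleton.elim _ _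
      simp
    · exact i.elim0
  have h2 := LinearMap.congr_fun h f
  simpa using h2

lemma lc_mem_span {α : Type w} {N : Type u} [AddCommGroup N] [Module ℚ N] (v : α → N)
    (f : ((α ⊕ Fin 1) ⊕ Fin 0) →₀ ℚ) :
    lc (Sum.elim (Sum.elim v (fun _ => 0)) (default : Fin 0 → N)) f ∈
      Submodule.span ℚ (Set.range v) := by
  refine Submodule.sum_mem _ fun i _ => Submodule.smul_mem _ _ ?_
  rcases i with (a | i) | i
  · exact Submodule.subset_span ⟨a, rfl⟩
  · exact Submodule.zero_mem _
  · exact i.elim0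

open Classical in
/-- The truth value of `φ(v, x)` depends only on the position of `x` with respect to finitely many
elements of the span of the parameters. -/
lemma position {α : Type w} {N : Type u} [AddCommGroup N] [LinearOrder N] [IsOrderedAddMonoid N]
    [Module ℚ N] [Nontrivial N] [OV.Structure N] [IsOV N] (φ : OV.Formula (α ⊕ Fin 1))
    (v : α → N) :
    ∃ F : Finset N, (∀ t ∈ F, t ∈ Submodule.span ℚ (Set.range v)) ∧
      ∀ x x' : N, (∀ t ∈ F, (t < x ↔ t < x') ∧ (x < t ↔ x' < t)) →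
        (φ.Realize (Sum.elim v (fun _ => x)) ↔ φ.Realize (Sum.elim v (fun _ => x'))) := by
  obtain ⟨Λ, hΛ⟩ := qe.{u} φ
  set t : (((α ⊕ Fin 1) ⊕ Fin 0) →₀ ℚ) → N := fun f => (-(f (Sum.inl (Sum.inr 0)))⁻¹) •
    lc (Sum.elim (Sum.elim v (fun _ => 0)) (default : Fin 0 → N)) f with ht
  refine ⟨Λ.image t, ?_, fun x x' h => ?_⟩
  · intro y hy
    obtain ⟨f, _, rfl⟩ := Finset.mem_image.1 hy
    exact Submodule.smul_mem _ _ (lc_mem_span v f)
  · refine hΛ N N _ _ _ _ fun f hf => ?_
    rw [lc_split v x, lc_split v x']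
    by_cases hs : f (Sum.inl (Sum.inr 0)) = 0
    · rw [hs, zero_smul, zero_smul]
      exact ⟨Iff.rfl, Iff.rfl⟩
    · obtain ⟨h1, h2⟩ := h (t f) (Finset.mem_image_of_mem _ hf)
      set s := f (Sum.inl (Sum.inr 0)) with hsdef
      have e1 : ∀ y : N, lc (Sum.elim (Sum.elim v (fun _ => 0)) (default : Fin 0 → N)) f + s • y =
          s • (y - t f) := by
        intro y
        simp only [ht, lc, smul_sub, smul_smul, ← hsdef]
        rw [mul_neg, mul_inv_cancel₀ hs, neg_smul, one_smul, sub_neg_eq_add, add_comm]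
      have e3 : ∀ y : N, (s • y < 0 ↔ 0 < (-s) • y) := by
        intro y
        rw [neg_smul, neg_pos]
      rw [e1, e1, e3, e3]
      rcases lt_or_gt_of_ne hs with h3 | h3
      · rw [q_smul_pos_iff_of_neg h3, q_smul_pos_iff_of_neg h3, q_smul_pos_iff (neg_pos.2 h3),
          q_smul_pos_iff (neg_pos.2 h3), sub_neg, sub_neg, sub_pos, sub_pos]
        exact ⟨h2, h1⟩
      · rw [q_smul_pos_iff h3, q_smul_pos_iff h3, q_smul_pos_iff_of_neg (neg_neg_of_pos h3),
          q_smul_pos_iff_of_neg (neg_neg_of_pos h3), sub_neg, sub_neg, sub_pos, sub_pos]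
        exact ⟨h1, h2⟩

/-- A set determined by the positions with respect to a finite set is a finite union of points and
intervals. -/
lemma cells {N : Type u} [LinearOrder N] (F : Finset N) (S : Set N)
    (h : ∀ x x' : N, (∀ t ∈ F, (t < x ↔ t < x') ∧ (x < t ↔ x' < t)) → (x ∈ S ↔ x' ∈ S)) :
    ∃ G : Set (Set N), G.Finite ∧ (∀ X ∈ G, (∃ a, X = {a}) ∨ ∃ a b : Option N,
      X = {x | (∀ c, a = some c → c < x) ∧ ∀ c, b = some c → x < c}) ∧ S = ⋃₀ G := by
  classical
  set cell : Option N × Option N → Set N := fun p =>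
    {x | (∀ c, p.1 = some c → c < x) ∧ ∀ c, p.2 = some c → x < c} with hcell
  set E : Finset (Option N) := insert none (F.image some) with hE
  refine ⟨{X | X ⊆ S ∧ (X ∈ (fun a => ({a} : Set N)) '' (F : Set N) ∨
    X ∈ cell '' ((E ×ˢ E : Finset _) : Set (Option N × Option N)))}, ?_, ?_, ?_⟩
  · refine Set.Finite.subset (((Finset.finite_toSet F).image (fun a => ({a} : Set N))).union
      ((Finset.finite_toSet (E ×ˢ E)).image cell)) ?_
    rintro X ⟨_, hX⟩
    exact hX
  · rintro X ⟨_, ⟨a, _, rfl⟩ | ⟨p, _, rfl⟩⟩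
    · exact Or.inl ⟨a, rfl⟩
    · exact Or.inr ⟨p.1, p.2, rfl⟩
  · apply Set.Subset.antisymm
    · intro x hx
      by_cases hxF : x ∈ F
      · exact ⟨{x}, ⟨Set.singleton_subset_iff.2 hx, Or.inl ⟨x, hxF, rfl⟩⟩, rfl⟩
      · have hlo : ∃ a ∈ E, (∀ c, a = some c → c < x) ∧
            ∀ t ∈ F, t < x → ∃ c, a = some c ∧ t ≤ c := by
          by_cases hne : (F.filter (· < x)).Nonempty
          · have hm := Finset.max'_mem _ hne
            rw [Finset.mem_filter] at hm
            refine ⟨some ((F.filter (· < x)).max' hne), ?_, ?_, ?_⟩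
            · exact Finset.mem_insert_of_mem (Finset.mem_image_of_mem _ hm.1)
            · intro c hc
              rw [← Option.some.inj hc]
              exact hm.2
            · intro t ht htx
              exact ⟨_, rfl, Finset.le_max' _ _ (Finset.mem_filter.2 ⟨ht, htx⟩)⟩
          · refine ⟨none, Finset.mem_insert_self _ _, fun c hc => by simp at hc, ?_⟩
            intro t ht htx
            exact absurd ⟨t, Finset.mem_filter.2 ⟨ht, htx⟩⟩ hne
        have hhi : ∃ a ∈ E, (∀ c, a = some c → x < c) ∧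
            ∀ t ∈ F, x < t → ∃ c, a = some c ∧ c ≤ t := by
          by_cases hne : (F.filter (x < ·)).Nonempty
          · have hm := Finset.min'_mem _ hne
            rw [Finset.mem_filter] at hm
            refine ⟨some ((F.filter (x < ·)).min' hne), ?_, ?_, ?_⟩
            · exact Finset.mem_insert_of_mem (Finset.mem_image_of_mem _ hm.1)
            · intro c hc
              rw [← Option.some.inj hc]
              exact hm.2
            · intro t ht htx
              exact ⟨_, rfl, Finset.min'_le _ _ (Finset.mem_filter.2 ⟨ht, htx⟩)⟩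
          · refine ⟨none, Finset.mem_insert_self _ _, fun c hc => by simp at hc, ?_⟩
            intro t ht htx
            exact absurd ⟨t, Finset.mem_filter.2 ⟨ht, htx⟩⟩ hne
        obtain ⟨a, haE, ha1, ha2⟩ := hlo
        obtain ⟨b, hbE, hb1, hb2⟩ := hhi
        refine ⟨cell (a, b), ⟨?_, Or.inr ⟨(a, b), ?_, rfl⟩⟩, ⟨ha1, hb1⟩⟩
        · rintro x' ⟨hx1, hx2⟩
          refine (h x x' fun t ht => ?_).1 hx
          have hne : t ≠ x := fun h => hxF (h ▸ ht)
          rcases lt_or_gt_of_ne hne with h1 | h1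
          · obtain ⟨c, hc, htc⟩ := ha2 t ht h1
            have h2 : t < x' := lt_of_le_of_lt htc (hx1 c hc)
            exact ⟨⟨fun _ => h2, fun _ => h1⟩, ⟨fun h3 => absurd h3 h1.asymm,
              fun h3 => absurd h3 h2.asymm⟩⟩
          · obtain ⟨c, hc, htc⟩ := hb2 t ht h1
            have h2 : x' < t := lt_of_lt_of_le (hx2 c hc) htc
            exact ⟨⟨fun h3 => absurd h3 h1.asymm, fun h3 => absurd h3 h2.asymm⟩,
              ⟨fun _ => h2, fun _ => h1⟩⟩
        · exact Finset.mem_coe.2 (Finset.mem_product.2 ⟨haE, hbE⟩)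
    · rintro x ⟨X, ⟨hX, _⟩, hx⟩
      exact hX hx

/-- The symbol `<` is interpreted by `<`. -/
lemma Lt_iff {N : Type u} [AddCommGroup N] [LinearOrder N] [Module ℚ N] [OV.Structure N] [IsOV N]
    (a b : N) : Lt ltSym N a b ↔ a < b := IsOV.lt (N := N) ![a, b]

theorem omin_model {N : Type u} [AddCommGroup N] [LinearOrder N] [IsOrderedAddMonoid N]
    [Module ℚ N] [Nontrivial N] [OV.Structure N] [IsOV N] : OMinStr ltSym N := by
  haveI := densely N
  refine ⟨fun a => ?_, fun a b c => ?_, fun a b => ?_, fun a b => ?_, fun a => ?_, fun a => ?_,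
    fun S hS => ?_⟩
  · rw [Lt_iff]; exact lt_irrefl a
  · rw [Lt_iff, Lt_iff, Lt_iff]; exact lt_trans
  · rw [Lt_iff, Lt_iff]; exact lt_trichotomy a b
  · rw [Lt_iff]
    intro h
    obtain ⟨c, h1, h2⟩ := exists_between h
    exact ⟨c, (Lt_iff _ _).2 h1, (Lt_iff _ _).2 h2⟩
  · obtain ⟨b, hb⟩ := exists_gt a
    exact ⟨b, (Lt_iff _ _).2 hb⟩
  · obtain ⟨b, hb⟩ := exists_lt a
    exact ⟨b, (Lt_iff _ _).2 hb⟩
  · obtain ⟨φ, hφ⟩ := Set.definable_iff_exists_formula_sum.1 hS
    obtain ⟨F, _, hF⟩ := position φ (fun a : (Set.univ : Set N) => (a : N))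
    have hmem : ∀ x : N, x ∈ S ↔
        φ.Realize (Sum.elim (fun a : (Set.univ : Set N) => (a : N)) (fun _ => x)) := by
      intro x
      have h1 : (fun _ : Fin 1 => x) ∈ {x : Fin 1 → N | x 0 ∈ S} ↔ x ∈ S := Iff.rfl
      rw [← h1, hφ]
      exact Iff.rfl
    obtain ⟨G, hG1, hG2, hG3⟩ := cells F S (fun x x' h => by
      rw [hmem, hmem]
      exact hF x x' h)
    refine ⟨G, hG1, fun X hX => ?_, hG3⟩
    rcases hG2 X hX with h | ⟨a, b, h⟩
    · exact Or.inl h
    · refine Or.inr ⟨a, b, ?_⟩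
      rw [h]
      ext x
      simp only [OpenInt, Set.mem_setOf_eq, Lt_iff]

theorem omin_TQ : OMinimal.{u} ltSym TQ := by
  refine ⟨?_, fun N _ _ hN => ?_⟩
  · letI := ovStr ℚ
    exact FirstOrder.Language.completeTheory.isComplete OV ℚ
  · obtain ⟨i1, i2, i3, i4, i5, i6⟩ := exists_inst hN
    exact omin_model

/-- The definable closure of a set is contained in its rational span. -/
theorem dcl_le_span {N : Type u} [AddCommGroup N] [LinearOrder N] [IsOrderedAddMonoid N]
    [Module ℚ N] [Nontrivial N] [OV.Structure N] [IsOV N] (A : Set N) {c : N}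
    (hc : c ∈ dcl OV A) : c ∈ Submodule.span ℚ A := by
  haveI := densely N
  obtain ⟨φ, hφ⟩ := Set.definable_iff_exists_formula_sum.1 hc
  have hmem : ∀ x : N, x = c ↔
      φ.Realize (Sum.elim (fun a : A => (a : N)) (fun _ => x)) := by
    intro x
    have h1 : (fun _ : Fin 1 => x) ∈ {x : Fin 1 → N | x 0 ∈ ({c} : Set N)} ↔ x = c := Iff.rfl
    rw [← h1, hφ]
    exact Iff.rfl
  obtain ⟨F, hFs, hF⟩ := position φ (fun a : A => (a : N))
  rw [Subtype.range_coe] at hFs
  by_contra hcs
  have hcF : c ∉ F := fun h => hcs (hFs c h)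
  obtain ⟨x, hx1, hx2⟩ := Order.exists_between_finsets {c} (F.filter (c < ·)) (by
    intro a ha b hb
    rw [Finset.mem_singleton] at ha
    rw [ha]
    exact (Finset.mem_filter.1 hb).2)
  have hcx : c < x := hx1 c (Finset.mem_singleton_self _)
  have h1 := hF c x (fun t ht => by
    have hne : t ≠ c := fun h => hcF (h ▸ ht)
    rcases lt_or_gt_of_ne hne with h | h
    · have h2 : t < x := h.trans hcx
      exact ⟨⟨fun _ => h2, fun _ => h⟩, ⟨fun h3 => absurd h3 h.asymm,
              fun h3 => absurd h3 h2.asymm⟩⟩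
    · have h2 : x < t := hx2 t (Finset.mem_filter.2 ⟨ht, h⟩)
      exact ⟨⟨fun h3 => absurd h3 h.asymm, fun h3 => absurd h3 h2.asymm⟩,
              ⟨fun _ => h2, fun _ => h⟩⟩)
  have h2 := (hmem x).2 (h1.1 ((hmem c).1 rfl))
  exact absurd h2 hcx.ne'

end Pool.Agent.R466.OM
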