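import Mathlib

/-!
Quantifier elimination (in a semantic two-structure form) for ordered vector spaces over `ℚ`.
-/

namespace Pool.Agent.R466.OM

open FirstOrder FirstOrder.Language FirstOrder.Language.Structure

universe u w

/-- Function symbols of the language of ordered rational vector spaces. -/
inductive OVFun : ℕ → Type
  | zero : OVFun 0
  | smul : ℚ → OVFun 1
  | add : OVFun 2

/-- Relation symbols of the language of ordered rational vector spaces. -/
inductive OVRel : ℕ → Type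
  | lt : OVRel 2

/-- The language of ordered rational vector spaces. -/
def OV : FirstOrder.Language.{0, 0} := ⟨OVFun, OVRel⟩

/-- The symbol `<`. -/
def ltSym : OV.Relations 2 := OVRel.lt

/-- The `OV`-structure of an ordered rational vector space. -/
def ovStr (N : Type u) [AddCommGroup N] [LinearOrder N] [Module ℚ N] : OV.Structure N where
  funMap := fun {n} (f : OVFun n) x => match n, f, x with
    | _, .zero, _ => 0
    | _, .smul q, x => q • x 0
    | _, .add, x => x 0 + x 1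
  RelMap := fun {n} (r : OVRel n) x => match n, r, x with
    | _, .lt, x => x 0 < x 1

/-- The `OV`-structure of `N` is the one given by the algebraic structure of `N`. -/
class IsOV (N : Type u) [AddCommGroup N] [LinearOrder N] [Module ℚ N] [OV.Structure N] :
    Prop where
  zero : ∀ x : Fin 0 → N, funMap (L := OV) (OVFun.zero : OV.Functions 0) x = 0
  smul : ∀ (q : ℚ) (x : Fin 1 → N), funMap (L := OV) (OVFun.smul q : OV.Functions 1) x = q • x 0
  add : ∀ x : Fin 2 → N, funMap (L := OV) (OVFun.add : OV.Functions 2) x = x 0 + x 1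
  lt : ∀ x : Fin 2 → N, RelMap (L := OV) (OVRel.lt : OV.Relations 2) x ↔ x 0 < x 1

lemma isOV_ovStr (N : Type u) [AddCommGroup N] [LinearOrder N] [Module ℚ N] :
    @IsOV N _ _ _ (ovStr N) := by
  letI := ovStr N
  exact ⟨fun _ => rfl, fun _ _ => rfl, fun _ => rfl, fun _ => Iff.rfl⟩

section basics

variable {N : Type u} [AddCommGroup N] [LinearOrder N] [IsOrderedAddMonoid N] [Module ℚ N]

lemma q_smul_pos {q : ℚ} (hq : 0 < q) {x : N} (hx : 0 < x) : 0 < q • x := by
  by_contra h
  push Not at h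
  have h1 : q.den • (q • x) = q.num.toNat • x := by
    have h2 : ((q.den : ℚ)) • (q • x) = ((q.num.toNat : ℕ) : ℚ) • x := by
      rw [smul_smul]
      congr 1
      have h3 : (q.den : ℚ) * q = q.num := Rat.den_mul_eq_num q
      rw [h3]
      have h4 : ((q.num.toNat : ℤ)) = q.num := Int.toNat_of_nonneg (Rat.num_nonneg.2 hq.le)
      exact_mod_cast h4.symm
    rw [Nat.cast_smul_eq_nsmul, Nat.cast_smul_eq_nsmul] at h2
    exact h2
  have h5 : 0 < q.num.toNat := by
    have : 0 < q.num := Rat.num_pos.2 hq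
    omega
  have h6 : 0 < q.num.toNat • x := nsmul_pos hx h5.ne'
  have h7 : q.den • (q • x) ≤ 0 := nsmul_nonpos h _
  rw [h1] at h7
  exact absurd h6 (not_lt.2 h7)

instance (priority := 50) posSMulStrictMono_rat : PosSMulStrictMono ℚ N where
  smul_lt_smul_of_pos_left q hq a b hab := by
    have h : 0 < q • (b - a) := q_smul_pos hq (sub_pos.2 hab)
    rw [smul_sub] at h
    exact sub_pos.1 h

lemma q_smul_pos_iff {q : ℚ} (hq : 0 < q) {x : N} : 0 < q • x ↔ 0 < x := by
  refine ⟨fun h => ?_, fun h => q_smul_pos hq h⟩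
  have h1 : 0 < q⁻¹ • (q • x) := q_smul_pos (inv_pos.2 hq) h
  rwa [smul_smul, inv_mul_cancel₀ hq.ne', one_smul] at h1

lemma q_smul_pos_iff_of_neg {q : ℚ} (hq : q < 0) {x : N} : 0 < q • x ↔ x < 0 := by
  have h : q • x = (-q) • (-x) := by rw [smul_neg, neg_smul, neg_neg]
  rw [h, q_smul_pos_iff (neg_pos.2 hq), neg_pos]

lemma densely (N : Type u) [AddCommGroup N] [LinearOrder N] [IsOrderedAddMonoid N] [Module ℚ N] :
    DenselyOrdered N where
  dense a b hab := by
    refine ⟨(1/2 : ℚ) • (a + b), ?_, ?_⟩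
    · have h : 0 < (1/2 : ℚ) • (b - a) := q_smul_pos (by norm_num) (sub_pos.2 hab)
      have h2 : (1/2 : ℚ) • (a + b) - a = (1/2 : ℚ) • (b - a) := by
        rw [smul_add, smul_sub]
        have : a = (1/2 : ℚ) • a + (1/2 : ℚ) • a := by
          rw [← add_smul]; norm_num
        nth_rewrite 2 [this]
        abel
      rw [← sub_pos, h2]; exact h
    · have h : 0 < (1/2 : ℚ) • (b - a) := q_smul_pos (by norm_num) (sub_pos.2 hab)
      have h2 : b - (1/2 : ℚ) • (a + b) = (1/2 : ℚ) • (b - a) := by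
        rw [smul_add, smul_sub]
        have : b = (1/2 : ℚ) • b + (1/2 : ℚ) • b := by
          rw [← add_smul]; norm_num
        nth_rewrite 1 [this]
        abel
      rw [← sub_pos, h2]; exact h

end basics

/-- Evaluation of a formal linear combination. -/
noncomputable abbrev lc {α : Type w} {N : Type u} [AddCommGroup N] [Module ℚ N] (v : α → N)
    (f : α →₀ ℚ) : N := Finsupp.linearCombination ℚ v f

/-- The linear forms in `Λ` have the same signs at `v` and at `v'`. -/
def SameSign {α : Type w} (Λ : Finset (α →₀ ℚ)) {N N' : Type u} [AddCommGroup N] [LinearOrder N]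
    [Module ℚ N] [AddCommGroup N'] [LinearOrder N'] [Module ℚ N'] (v : α → N) (v' : α → N') :
    Prop :=
  ∀ f ∈ Λ, (0 < lc v f ↔ 0 < lc v' f) ∧ (lc v f < 0 ↔ lc v' f < 0)

lemma term_lin {α : Type w} (t : OV.Term α) : ∃ f : α →₀ ℚ, ∀ (N : Type u) [AddCommGroup N]
    [LinearOrder N] [IsOrderedAddMonoid N] [Module ℚ N] [OV.Structure N] [IsOV N] (v : α → N),
    t.realize v = lc v f := by
  induction t with
  | var a =>
    refine ⟨Finsupp.single a 1, fun N _ _ _ _ _ _ v => ?_⟩
    simp [lc]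
  | @func l f ts ih =>
    choose g hg using ih
    change OVFun l at f
    cases f with
    | zero =>
      refine ⟨0, fun N _ _ _ _ _ _ v => ?_⟩
      refine (IsOV.zero (fun i => (ts i).realize v)).trans ?_
      simp [lc]
    | smul q =>
      refine ⟨q • g 0, fun N _ _ _ _ _ _ v => ?_⟩
      refine (IsOV.smul q (fun i => (ts i).realize v)).trans ?_
      change q • (ts 0).realize v = _
      rw [hg 0 N v]
      simp [lc]
    | add =>
      refine ⟨g 0 + g 1, fun N _ _ _ _ _ _ v => ?_⟩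
      refine (IsOV.add (fun i => (ts i).realize v)).trans ?_
      change (ts 0).realize v + (ts 1).realize v = _
      rw [hg 0 N v, hg 1 N v]
      simp [lc]

/-- Forgetting the last variable. -/
noncomputable def dropL (α : Type w) (n : ℕ) :
    ((α ⊕ Fin (n+1)) →₀ ℚ) →ₗ[ℚ] ((α ⊕ Fin n) →₀ ℚ) :=
  Finsupp.linearCombination ℚ (Sum.elim (fun a => Finsupp.single (Sum.inl a) 1)
    (Fin.snoc (α := fun _ => (α ⊕ Fin n) →₀ ℚ) (fun i => Finsupp.single (Sum.inr i) 1) 0))

lemma lc_snoc {α : Type w} {n : ℕ} {N : Type u} [AddCommGroup N] [Module ℚ N] (v : α → N)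
    (xs : Fin n → N) (x : N) (f : (α ⊕ Fin (n+1)) →₀ ℚ) :
    lc (Sum.elim v (Fin.snoc (α := fun _ => N) xs x)) f =
      lc (Sum.elim v xs) (dropL α n f) + f (Sum.inr (Fin.last n)) • x := by
  have h : Finsupp.linearCombination ℚ (Sum.elim v (Fin.snoc (α := fun _ => N) xs x)) =
      (Finsupp.linearCombination ℚ (Sum.elim v xs)) ∘ₗ (dropL α n) +
        (LinearMap.toSpanSingleton ℚ N x) ∘ₗ (Finsupp.lapply (Sum.inr (Fin.last n))) := by
    refine Finsupp.lhom_ext' fun i => LinearMap.ext_ring ?_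
    rcases i with a | i
    · simp [dropL]
    · refine Fin.lastCases ?_ (fun i => ?_) i
      · simp [dropL]
      · have : (Sum.inr (Fin.castSucc i) : α ⊕ Fin (n+1)) ≠ Sum.inr (Fin.last n) := by
          intro h
          exact (Fin.castSucc_lt_last i).ne (Sum.inr.inj h)
        simp [dropL, Finsupp.single_apply, this]
  have h2 := LinearMap.congr_fun h f
  simpa using h2

open Classical in
/-- The forms tested in one quantifier step. -/
noncomputable def stepForms (α : Type w) (n : ℕ) (Λ : Finset ((α ⊕ Fin (n+1)) →₀ ℚ)) :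
    Finset ((α ⊕ Fin n) →₀ ℚ) :=
  Λ.image (dropL α n) ∪ (Λ ×ˢ Λ).image (fun p =>
    (-(p.1 (Sum.inr (Fin.last n)))⁻¹) • dropL α n p.1 -
      (-(p.2 (Sum.inr (Fin.last n)))⁻¹) • dropL α n p.2)

open Classical in
lemma step {α : Type w} {n : ℕ} (Λ : Finset ((α ⊕ Fin (n+1)) →₀ ℚ)) {N N' : Type u}
    [AddCommGroup N] [LinearOrder N] [IsOrderedAddMonoid N] [Module ℚ N] [Nontrivial N]
    [AddCommGroup N'] [LinearOrder N'] [IsOrderedAddMonoid N'] [Module ℚ N']
    (v : α → N) (xs : Fin n → N) (v' : α → N') (xs' : Fin n → N')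
    (h : SameSign (stepForms α n Λ) (Sum.elim v xs) (Sum.elim v' xs')) (x' : N') :
    ∃ x : N, SameSign Λ (Sum.elim v (Fin.snoc (α := fun _ => N) xs x))
      (Sum.elim v' (Fin.snoc (α := fun _ => N') xs' x')) := by
  haveI := densely N
  set t : ((α ⊕ Fin (n+1)) →₀ ℚ) → ((α ⊕ Fin n) →₀ ℚ) := fun f =>
    (-(f (Sum.inr (Fin.last n)))⁻¹) • dropL α n f with ht
  set T : ((α ⊕ Fin (n+1)) →₀ ℚ) → N := fun f => lc (Sum.elim v xs) (t f) with hT
  set T' : ((α ⊕ Fin (n+1)) →₀ ℚ) → N' := fun f => lc (Sum.elim v' xs') (t f) with hT'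
  have hlt : ∀ f ∈ Λ, ∀ g ∈ Λ, (T f < T g ↔ T' f < T' g) := by
    intro f hf g hg
    have h1 := (h (t g - t f) (Finset.mem_union_right _ (Finset.mem_image.2
      ⟨(g, f), Finset.mem_product.2 ⟨hg, hf⟩, rfl⟩))).1
    simp only [lc, map_sub, sub_pos] at h1
    exact h1
  have hpos : ∃ x : N, ∀ f ∈ Λ, (T f < x ↔ T' f < x') ∧ (x < T f ↔ x' < T' f) := by
    by_cases hm : ∃ m ∈ Λ, T' m = x'
    · obtain ⟨m, hm, rfl⟩ := hm
      exact ⟨T m, fun f hf => ⟨hlt f hf m hm, hlt m hm f hf⟩⟩
    · push Not at hm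
      obtain ⟨x, hx1, hx2⟩ := Order.exists_between_finsets
        ((Λ.filter (fun f => T' f < x')).image T) ((Λ.filter (fun f => x' < T' f)).image T) (by
          intro a ha b hb
          obtain ⟨f, hf, rfl⟩ := Finset.mem_image.1 ha
          obtain ⟨g, hg, rfl⟩ := Finset.mem_image.1 hb
          rw [Finset.mem_filter] at hf hg
          exact (hlt f hf.1 g hg.1).2 (hf.2.trans hg.2))
      refine ⟨x, fun f hf => ?_⟩
      rcases lt_or_gt_of_ne (hm f hf) with h1 | h1
      · have h2 : T f < x := hx1 _ (Finset.mem_image_of_mem _ (Finset.mem_filter.2 ⟨hf, h1⟩))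
        exact ⟨⟨fun _ => h1, fun _ => h2⟩, ⟨fun h3 => absurd h3 h2.asymm,
          fun h3 => absurd h3 h1.asymm⟩⟩
      · have h2 : x < T f := hx2 _ (Finset.mem_image_of_mem _ (Finset.mem_filter.2 ⟨hf, h1⟩))
        exact ⟨⟨fun h3 => absurd h3 h2.asymm,
          fun h3 => absurd h3 (not_lt.2 (le_of_lt h1))⟩, ⟨fun _ => h1, fun _ => h2⟩⟩
  obtain ⟨x, hx⟩ := hpos
  refine ⟨x, fun f hf => ?_⟩
  rw [lc_snoc, lc_snoc]
  by_cases hs : f (Sum.inr (Fin.last n)) = 0
  · have h1 := h (dropL α n f) (Finset.mem_union_left _ (Finset.mem_image_of_mem _ hf))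
    rw [hs, zero_smul, zero_smul, add_zero, add_zero]
    exact h1
  · set s := f (Sum.inr (Fin.last n)) with hsdef
    have e1 : lc (Sum.elim v xs) (dropL α n f) + s • x = s • (x - T f) := by
      simp only [hT, ht, lc, map_smul, smul_sub, smul_smul, ← hsdef]
      rw [mul_neg, mul_inv_cancel₀ hs, neg_smul, one_smul, sub_neg_eq_add, add_comm]
    have e2 : lc (Sum.elim v' xs') (dropL α n f) + s • x' = s • (x' - T' f) := by
      simp only [hT', ht, lc, map_smul, smul_sub, smul_smul, ← hsdef]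
      rw [mul_neg, mul_inv_cancel₀ hs, neg_smul, one_smul, sub_neg_eq_add, add_comm]
    have e3 : ∀ (K : Type u) [AddCommGroup K] [LinearOrder K] [IsOrderedAddMonoid K] [Module ℚ K]
        (y : K), (s • y < 0 ↔ 0 < (-s) • y) := by
      intro K _ _ _ _ y
      rw [neg_smul, neg_pos]
    rw [e1, e2, e3, e3]
    rcases lt_or_gt_of_ne hs with h1 | h1
    · rw [q_smul_pos_iff_of_neg h1, q_smul_pos_iff_of_neg h1, q_smul_pos_iff (neg_pos.2 h1),
        q_smul_pos_iff (neg_pos.2 h1), sub_neg, sub_neg, sub_pos, sub_pos]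
      exact ⟨(hx f hf).2, (hx f hf).1⟩
    · rw [q_smul_pos_iff h1, q_smul_pos_iff h1, q_smul_pos_iff_of_neg (neg_neg_of_pos h1),
        q_smul_pos_iff_of_neg (neg_neg_of_pos h1), sub_neg, sub_neg, sub_pos, sub_pos]
      exact ⟨(hx f hf).1, (hx f hf).2⟩

lemma SameSign.symm {α : Type w} {Λ : Finset (α →₀ ℚ)} {N N' : Type u} [AddCommGroup N]
    [LinearOrder N] [Module ℚ N] [AddCommGroup N'] [LinearOrder N'] [Module ℚ N'] {v : α → N}
    {v' : α → N'} (h : SameSign Λ v v') : SameSign Λ v' v :=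
  fun f hf => ⟨(h f hf).1.symm, (h f hf).2.symm⟩

open Classical in
/-- Semantic quantifier elimination: the truth value of a formula is determined by the signs of
finitely many linear forms. -/
theorem qe {α : Type w} {n : ℕ} (φ : OV.BoundedFormula α n) :
    ∃ Λ : Finset ((α ⊕ Fin n) →₀ ℚ), ∀ (N N' : Type u)
      [AddCommGroup N] [LinearOrder N] [IsOrderedAddMonoid N] [Module ℚ N] [Nontrivial N]
      [OV.Structure N] [IsOV N]
      [AddCommGroup N'] [LinearOrder N'] [IsOrderedAddMonoid N'] [Module ℚ N'] [Nontrivial N']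
      [OV.Structure N'] [IsOV N']
      (v : α → N) (xs : Fin n → N) (v' : α → N') (xs' : Fin n → N'),
      SameSign Λ (Sum.elim v xs) (Sum.elim v' xs') → (φ.Realize v xs ↔ φ.Realize v' xs') := by
  induction φ with
  | falsum =>
    exact ⟨∅, fun N N' _ _ _ _ _ _ _ _ _ _ _ _ _ _ v xs v' xs' _ => Iff.rfl⟩
  | equal t₁ t₂ =>
    obtain ⟨f₁, h₁⟩ := term_lin.{u} t₁
    obtain ⟨f₂, h₂⟩ := term_lin.{u} t₂
    refine ⟨{f₁ - f₂}, fun N N' _ _ _ _ _ _ _ _ _ _ _ _ _ _ v xs v' xs' h => ?_⟩
    obtain ⟨ha, hb⟩ := h _ (Finset.mem_singleton_self _)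
    simp only [BoundedFormula.Realize]
    rw [h₁ N, h₂ N, h₁ N', h₂ N']
    simp only [lc, map_sub, sub_pos, sub_neg] at ha hb
    simp only [lc]
    constructor
    · intro h3
      refine le_antisymm (not_lt.1 fun h4 => ?_) (not_lt.1 fun h4 => ?_)
      · have := ha.2 h4
        rw [h3] at this
        exact lt_irrefl _ this
      · have := hb.2 h4
        rw [h3] at this
        exact lt_irrefl _ this
    · intro h3
      refine le_antisymm (not_lt.1 fun h4 => ?_) (not_lt.1 fun h4 => ?_)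
      · have := ha.1 h4
        rw [h3] at this
        exact lt_irrefl _ this
      · have := hb.1 h4
        rw [h3] at this
        exact lt_irrefl _ this
  | @rel n l R ts =>
    change OVRel l at R
    cases R with
    | lt =>
      obtain ⟨f₀, h₀⟩ := term_lin.{u} (ts 0)
      obtain ⟨f₁, h₁⟩ := term_lin.{u} (ts 1)
      refine ⟨{f₁ - f₀}, fun N N' _ _ _ _ _ _ _ _ _ _ _ _ _ _ v xs v' xs' h => ?_⟩
      obtain ⟨ha, hb⟩ := h _ (Finset.mem_singleton_self _)
      simp only [BoundedFormula.Realize]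
      have k1 := IsOV.lt (N := N) (fun i => (ts i).realize (Sum.elim v xs))
      have k2 := IsOV.lt (N := N') (fun i => (ts i).realize (Sum.elim v' xs'))
      simp only [h₀ N, h₁ N] at k1
      simp only [h₀ N', h₁ N'] at k2
      simp only [lc, map_sub, sub_pos] at ha
      exact (k1.trans ha).trans k2.symm
  | imp φ ψ ih1 ih2 =>
    obtain ⟨Λ₁, h₁⟩ := ih1
    obtain ⟨Λ₂, h₂⟩ := ih2
    refine ⟨Λ₁ ∪ Λ₂, fun N N' _ _ _ _ _ _ _ _ _ _ _ _ _ _ v xs v' xs' h => ?_⟩
    have e1 := h₁ N N' v xs v' xs' (fun f hf => h f (Finset.mem_union_left _ hf))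
    have e2 := h₂ N N' v xs v' xs' (fun f hf => h f (Finset.mem_union_right _ hf))
    simp only [BoundedFormula.Realize]
    rw [e1, e2]
  | all φ ih =>
    obtain ⟨Λ, hΛ⟩ := ih
    refine ⟨stepForms _ _ Λ, fun N N' _ _ _ _ _ _ _ _ _ _ _ _ _ _ v xs v' xs' h => ?_⟩
    simp only [BoundedFormula.Realize]
    constructor
    · intro h1 x'
      obtain ⟨x, hx⟩ := step Λ v xs v' xs' h x'
      exact (hΛ N N' _ _ _ _ hx).1 (h1 x)
    · intro h1 x
      obtain ⟨x', hx'⟩ := step Λ v' xs' v xs h.symm x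
      exact (hΛ N' N _ _ _ _ hx').1 (h1 x')

end Pool.Agent.R466.OM
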